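import Mathlib

/-! Project TN (helper2): full answer to MP_20903f_al.  Every `def S_xx : Prop` is a lemma job; the docstring
contains its complete proof.  All groups are finite.  p-nil means: there is a normal subgroup of order prime to
`p` and index a power of `p` (it is then the set of all elements of order prime to `p`). -/

namespace Q2.TN

open Subgroup

/-- normal Hall `p'`-subgroup: `G` is `p`-nilpotent -/
def IsPNil (p : ℕ) (G : Type) [Group G] : Prop :=
  ∃ N : Subgroup G, N.Normal ∧ (Nat.card N).Coprime p ∧ ∃ k : ℕ, N.index = p ^ k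

/-- `H / K` is a chief factor of `G` -/
def IsChief {G : Type} [Group G] (K H : Subgroup G) : Prop :=
  K.Normal ∧ H.Normal ∧ K < H ∧ ∀ L : Subgroup G, L.Normal → K ≤ L → L ≤ H → L = K ∨ L = H

/-- every chief factor has order `p` or order prime to `p` -/
def IsPSS (p : ℕ) (G : Type) [Group G] : Prop :=
  ∀ K H : Subgroup G, IsChief K H → K.relIndex H = p ∨ (K.relIndex H).Coprime p

/-- the intersection of all normal subgroups with `p`-supersolvable quotient -/
def superRes (p : ℕ) (G : Type) [Group G] : Subgroup G :=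
  sInf {N : Subgroup G | ∃ _ : N.Normal, IsPSS p (G ⧸ N)}

/-- `H` is c-embedded in `P` with respect to `P`: `P = H B` and `H ∩ B ≤ Z(P)` for some `B ≤ P` -/
def CEmb {G : Type} [Group G] (H P : Subgroup G) : Prop :=
  ∃ B : Subgroup G, B ≤ P ∧ (∀ x ∈ P, ∃ h ∈ H, ∃ b ∈ B, x = h * b) ∧
    ∀ x ∈ H, x ∈ B → ∀ y ∈ P, x * y = y * x

/-- condition (2') -/
def Cond (p : ℕ) {G : Type} [Group G] (P : Subgroup G) : Prop :=
  ∀ x : G, x ∉ normalizer (P : Set G) → ∀ H : Subgroup G, Nat.card H = p →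
    (∀ h ∈ H, h ∈ superRes p G ∧ h ∈ P ∧ x * h * x⁻¹ ∈ P) → CEmb H P

/-- Sylow `p`-subgroup as a predicate (use `hP.1.toSylow hP.2 : Sylow p G`; needs `Fact p.Prime`) -/
def IsSyl (p : ℕ) {G : Type} [Group G] (P : Subgroup G) : Prop := IsPGroup p P ∧ ¬ p ∣ P.index

/-- abelian subgroup -/
def IsAb {G : Type} [Group G] (A : Subgroup G) : Prop := ∀ x ∈ A, ∀ y ∈ A, x * y = y * x

/-- `A` is an abelian subgroup of `P` of the greatest order -/
def IsMaxAb {G : Type} [Group G] (P A : Subgroup G) : Prop :=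
  A ≤ P ∧ IsAb A ∧ ∀ B : Subgroup G, B ≤ P → IsAb B → Nat.card B ≤ Nat.card A

/-- `W true P = J(P)` (generated by the abelian subgroups of greatest order), `W false P = Z(P)` -/
def W {G : Type} [Group G] (b : Bool) (P : Subgroup G) : Subgroup G :=
  match b with
  | true => sSup {A : Subgroup G | IsMaxAb P A}
  | false => P ⊓ centralizer (P : Set G)

/-- the normalizer -/
abbrev Nm {G : Type} [Group G] (X : Subgroup G) : Subgroup G := normalizer (X : Set G)

/-- `U = O_p(G)`, the greatest normal `p`-subgroup -/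
def IsOp (p : ℕ) {G : Type} [Group G] (U : Subgroup G) : Prop :=
  U.Normal ∧ IsPGroup p U ∧ ∀ L : Subgroup G, L.Normal → IsPGroup p L → L ≤ U

/-- `G` has no nontrivial normal subgroup of order prime to `p` -/
def NoPp (p : ℕ) (G : Type) [Group G] : Prop :=
  ∀ N : Subgroup G, N.Normal → (Nat.card N).Coprime p → N = ⊥

/-! ### A. p-nilpotent groups -/

/-- **A1**. Subgroups of p-nil groups are p-nil.  Proof: with `N` from the definition take `N.subgroupOf H`:
normal; its order divides `card N`; its index is `N.relIndex H`, which divides `N.index` (`N` normal: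
`relIndex_dvd_index_of_normal`), so it is a power of `p` (`(Nat.dvd_prime_pow hp).1`). -/
def S_A1 : Prop := ∀ (p : ℕ), p.Prime → ∀ (G : Type) [Group G] [Finite G], IsPNil p G →
  ∀ H : Subgroup G, IsPNil p H

/-- **A2**. Images of p-nil groups are p-nil.  Proof: take `N.map f`; normal as `f` is surjective; its order
divides `card N` (`card_map_dvd`), its index divides `N.index` (`index_map_dvd`). -/
def S_A2 : Prop := ∀ (p : ℕ), p.Prime → ∀ (G H : Type) [Group G] [Group H] [Finite G] [Finite H]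
  (f : G →* H), Function.Surjective f → IsPNil p G → IsPNil p H

/-- **A3**. If `N` is a normal `p'`-subgroup and `G ⧸ N` is p-nil then `G` is p-nil.  Proof: comap of the
complement `M` of the quotient under `QuotientGroup.mk' N`: order `card N * card M`, index `M.index`
(`index_comap_of_surjective`). -/
def S_A3 : Prop := ∀ (p : ℕ), p.Prime → ∀ (G : Type) [Group G] [Finite G] (N : Subgroup G) [N.Normal],
  (Nat.card N).Coprime p → IsPNil p (G ⧸ N) → IsPNil p G

/-- **A4**. `P ≤ M`, `M` p-nil, `U` a normal `p`-subgroup of `G` with `U ≤ M`, `C_G(U) ≤ U`, `P` Sylow: then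
`M = P`.  Proof: let `M₀` be the normal `p`-complement of `M` and `U₁ = U.subgroupOf M`: both normal in `M`, of
coprime orders, so they commute elementwise (`Subgroup.commute_of_normal_of_disjoint`); the image of `M₀` in `G`
centralizes `U`, so it lies in `U`, a `p`-group, and has order prime to `p`: `M₀ = ⊥`, `M` is a `p`-group
containing the Sylow subgroup `P` (`Sylow.is_maximal'` or orders), so `M = P`. -/
def S_A4 : Prop := ∀ (p : ℕ), p.Prime → ∀ (G : Type) [Group G] [Finite G] (P M U : Subgroup G),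
  IsSyl p P → P ≤ M → IsPNil p M → U.Normal → IsPGroup p U → U ≤ M → centralizer (U : Set G) ≤ U → M = P

/-- **A5**. Existence of `O_p(G)`, and it lies in every Sylow `p`-subgroup; the quotient by it has no nontrivial
normal `p`-subgroup.  Proof: take a normal `p`-subgroup `U` of greatest order; for another one `L` the product
`U ⊔ L` is a normal `p`-subgroup (`IsPGroup.to_sup_of_normal_left` or right), so `L ≤ U`.  A normal `p`-subgroup
lies in some Sylow subgroup and hence in all conjugates.  If `L` is a normal `p`-subgroup of `G ⧸ U` its comap is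
a normal `p`-subgroup (`card` is `card U * card L`), so it is `U` and `L = ⊥`. -/
def S_A5 : Prop := ∀ (p : ℕ), p.Prime → ∀ (G : Type) [Group G] [Finite G],
  (∃ U : Subgroup G, IsOp p U) ∧
  (∀ U P : Subgroup G, U.Normal → IsPGroup p U → IsSyl p P → U ≤ P) ∧
  ∀ (U : Subgroup G) (_ : U.Normal), IsOp p U → IsOp p (⊥ : Subgroup (G ⧸ U))

/-- **A6**. Sylow subgroups (predicate `IsSyl`) in subgroups and quotients. (1) `P ≤ M`: `P.subgroupOf M` is
Sylow in `M`. (2) image under a surjective map. (3) a subgroup `M` of `G` has a Sylow subgroup, as a subgroup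
`R ≤ M` of `G` with `R.subgroupOf M` Sylow in `M`; `R` is contained in a conjugate of `P` for `P` Sylow in `G`.
Proof: Mathlib's `Sylow.subtype`, `index` facts, `IsPGroup.exists_le_sylow`, Sylow conjugacy
`MulAction.exists_smul_eq`. -/
def S_A6 : Prop := ∀ (p : ℕ), p.Prime → ∀ (G : Type) [Group G] [Finite G] (P : Subgroup G), IsSyl p P →
  (∀ M : Subgroup G, P ≤ M → IsSyl p (P.subgroupOf M)) ∧
  (∀ (H : Type) [Group H] [Finite H] (f : G →* H), Function.Surjective f → IsSyl p (P.map f)) ∧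
  ∀ M : Subgroup G, ∃ R : Subgroup G, R ≤ M ∧ IsSyl p (R.subgroupOf M) ∧
    ∃ g : G, R.map (MulAut.conj g).toMonoidHom ≤ P

/-! ### B. Frobenius -/

/-- **B1**. If `P` controls its own fusion then `G` is p-nil.  Proof: choose a normal subgroup `N` of `G` of
least order with `N.index` a power of `p` (`⊤` qualifies).  Claim: `p ∤ card N`.  Let `Q = P ⊓ N`, a Sylow
subgroup of `N` (as `N` is normal), and suppose `Q ≠ ⊥`.  (a) `Q ≤ N' = ⁅N, N⁆`: the elements of `N` whose image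
in the abelian group `N / N'` has order prime to `p` form a subgroup `N₁` of `N`, normal in `G` (it is
characteristic in `N`), `N / N₁` is a `p`-group, so `N₁.index` is a power of `p`, so `N₁ = N` by minimality, so
`N / N'` has order prime to `p` and the `p`-group `Q` maps trivially.  (b) By the focal subgroup theorem for `N`
(`Sylow...commutator_inf_eq_focalSubgroup` in Mathlib.GroupTheory.Focal) `Q = N' ∩ Q` is generated by the
elements `x⁻¹ y` with `x, y ∈ Q` conjugate in `N`; these are conjugate in `G`, so in `P` by hypothesis: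
`y = u x u⁻¹`, `u ∈ P`, so `x⁻¹ y ∈ ⁅Q, P⁆` (up to order).  So `Q ≤ ⁅Q, P⁆`.  (c) `Q` is a nontrivial normal
subgroup of the `p`-group `P` (nilpotent), so `⁅Q, P⁆ < Q` (iterate: `Q ≤ ⁅Q, P⁆ ≤ lower central series → ⊥`).
Contradiction. -/
def S_B1 : Prop := ∀ (p : ℕ), p.Prime → ∀ (G : Type) [Group G] [Finite G] (P : Subgroup G), IsSyl p P →
  (∀ x ∈ P, ∀ y ∈ P, IsConj x y → ∃ u ∈ P, u * x * u⁻¹ = y) → IsPNil p G

/-- **B2**. Suppose `N_G(U)` is p-nil for all nontrivial `p`-subgroups `U`.  Then two Sylow subgroups `P`, `S`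
are conjugate by an element of `C_G(P ∩ S)`.  Proof by downward induction on `card (P ⊓ S)`.  Let `D = P ⊓ S`.
If `P = S` take 1.  If `D = ⊥` the centralizer is everything: Sylow conjugacy.  Otherwise `D ≠ ⊥`, `D < P`,
`D < S`; `N = N_G(D)` is p-nil; let `O` be its normal `p`-complement: `O` and `D` are normal in `N` of coprime
orders, so `O` centralizes `D`.  Choose Sylow subgroups `T₁ ≥ P ⊓ N`, `T₂ ≥ S ⊓ N` of `N`.  As `N = T₁ O`, `T₂`
is conjugate to `T₁` by an element `o ∈ O` (conjugate by `t o` with `t ∈ T₁` and drop `t`).  Let `P₁ ≥ T₁` be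
Sylow in `G` and `S₁ = o P₁ o⁻¹ ≥ T₂`.  `P ⊓ P₁ ≥ P ⊓ N > D` (normalizers grow in the `p`-group `P`), similarly
`S ⊓ S₁ > D`, so by induction `P₁ = c₁ P c₁⁻¹`, `S = c₂ S₁ c₂⁻¹` with `c₁ ∈ C(P ⊓ P₁) ≤ C(D)`,
`c₂ ∈ C(S ⊓ S₁) ≤ C(D)`; `c = c₂ o c₁` does it. -/
def S_B2 : Prop := ∀ (p : ℕ), p.Prime → ∀ (G : Type) [Group G] [Finite G],
  (∀ U : Subgroup G, IsPGroup p U → U ≠ ⊥ → IsPNil p (Nm U)) →
  ∀ P S : Subgroup G, IsSyl p P → IsSyl p S →
    ∃ c ∈ centralizer ((P ⊓ S : Subgroup G) : Set G), P.map (MulAut.conj c).toMonoidHom = S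

/-- **B3 = Frobenius' theorem**.  Hypotheses B1, B2.  If `P = ⊥` then `p ∤ card G` and `N = ⊤` works.  Let
`x, y = g x g⁻¹ ∈ P`; `S = g P g⁻¹` contains `y`, so `y ∈ P ⊓ S`; by B2 (for `S`, `P`) some `c` centralizing
`P ⊓ S` has `c S c⁻¹ = P`, so `h = c g` normalizes `P` and `h x h⁻¹ = c y c⁻¹ = y`.  `P ≠ ⊥`, so `N_G(P)` is
p-nil; `P` and the normal `p`-complement `O` of `N_G(P)` commute and `N_G(P) = P O` (orders), so `h = u o`,
`h x h⁻¹ = u x u⁻¹`.  Now B1. -/
def S_B3 : Prop := ∀ (p : ℕ), p.Prime → ∀ (G : Type) [Group G] [Finite G],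
  (∀ U : Subgroup G, IsPGroup p U → U ≠ ⊥ → IsPNil p (Nm U)) → IsPNil p G

/-! ### C. Hall-Higman -/

/-- **C1**. `U = O_p(G)`, `G` has no nontrivial normal `p'`-subgroup, `G ⧸ U` p-nil: `C_G(U) ≤ U`.  Proof: let
`K` be the comap of the normal `p`-complement of `G ⧸ U` (normal, `U ≤ K`, `U.relIndex K` prime to `p`,
`K.index` a power of `p`), `C = C_G(U)` (normal), `L = C ⊓ K` (normal).  `Z = L ⊓ U` is central in `L` (as `L`
centralizes `U`), a `p`-group, and `L / Z` embeds in `K / U`, so `Z` is a normal subgroup of `L` whose order and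
index are coprime: by Schur-Zassenhaus (`Subgroup.exists_right_complement'_of_coprime`) `L = Z R`, `Z ∩ R = 1`;
as `Z` is central, `R` is the set of all elements of `L` of order prime to `p`, so `R` (as a subgroup of `G`) is
invariant under conjugation by `G`: a normal `p'`-subgroup, so trivial.  So `L = Z` is a `p`-group; `C / L`
embeds in `G / K`, a `p`-group, so `C` is a normal `p`-subgroup, `C ≤ U`. -/
def S_C1 : Prop := ∀ (p : ℕ), p.Prime → ∀ (G : Type) [Group G] [Finite G] (U : Subgroup G) [U.Normal],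
  IsOp p U → NoPp p G → IsPNil p (G ⧸ U) → centralizer (U : Set G) ≤ U

/-! ### D. `J(P)` and `Z(P)` -/

/-- **D1**. `W` is compatible with a homomorphism that is injective on `P`.  Proof: subgroups of `P.map f`
correspond to subgroups `A ≤ P` via `A.map f` (inverse: `B ↦ (B.comap f) ⊓ P`), preserving order, inclusion,
`Nat.card` and being abelian; `map` commutes with `sSup`.  For `Z`: `f x` commutes with `f y` iff `x` with `y`
for `x, y ∈ P`. -/
def S_D1 : Prop := ∀ (G H : Type) [Group G] [Group H] [Finite G] [Finite H] (f : G →* H) (P : Subgroup G),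
  (∀ x ∈ P, f x = 1 → x = 1) → ∀ b : Bool, (W b P).map f = W b (P.map f)

/-- **D2**. Simple facts: `W b P ≤ P`; `W b P ≠ ⊥` for a nontrivial `p`-group `P`; conjugation: if `g` normalizes
`P` then it normalizes `W b P` (D1 for `MulAut.conj g`; give a direct proof or assume `S_D1`), so
`N_G(P) ≤ N_G(W b P)` and `W b P` is normal if `P` is; `J(P) ≤ U ≤ P` implies `J(U) = J(P)` (the abelian subgroups
of greatest order of `P` lie in `J(P) ≤ U`, so both have the same ones).  `J(P) ≠ ⊥`: a cyclic subgroup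
generated by an element `≠ 1` of `P` is abelian of order `> 1`, so an abelian subgroup of greatest order (exists,
finitely many subgroups) is nontrivial.  `Z(P) ≠ ⊥`: centre of a `p`-group (`IsPGroup.center_nontrivial`). -/
def S_D2 : Prop := ∀ (p : ℕ), p.Prime → ∀ (G : Type) [Group G] [Finite G] (P : Subgroup G),
  (∀ b : Bool, W b P ≤ P ∧ (IsPGroup p P → P ≠ ⊥ → W b P ≠ ⊥) ∧ Nm P ≤ Nm (W b P) ∧
    (P.Normal → (W b P).Normal)) ∧
  ∀ U : Subgroup G, U ≤ P → W true P ≤ U → W true U = W true P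

/-! ### E. Quotients by normal `p'`-subgroups -/

/-- **E1**. `N` normal of order prime to `p`, `X` a `p`-subgroup: the normalizer of the image of `X` in `G ⧸ N`
is the image of the normalizer of `X`.  Proof (Frattini): `≥` is clear.  Let `gN` normalize `XN / N`, i.e. `g`
normalizes `X ⊔ N`.  `X` and `g X g⁻¹` are Sylow `p`-subgroups of `X ⊔ N` (index prime to `p`), so
`g X g⁻¹ = m X m⁻¹` with `m ∈ X ⊔ N = X N`, so with `m = n x` we get `g X g⁻¹ = n X n⁻¹` and `n⁻¹ g ∈ N_G(X)`. -/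
def S_E1 : Prop := ∀ (p : ℕ), p.Prime → ∀ (G : Type) [Group G] [Finite G] (N X : Subgroup G) [N.Normal],
  (Nat.card N).Coprime p → IsPGroup p X →
    Nm (X.map (QuotientGroup.mk' N)) = (Nm X).map (QuotientGroup.mk' N)

/-- **E2**. Transfer to the quotient.  Assume D1, E1, A2, D2.  `N` normal `p'`-subgroup, `P` a `p`-subgroup,
`N_G(W b P)` p-nil: `N_{G/N}(W b (PN/N))` p-nil.  Proof: `mk' N` is injective on the `p`-group `P` (an element of
`P ∩ N` has order a power of `p` dividing `card N`), so by D1 `W b (P.map mk') = (W b P).map mk'`; E1 for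
`X = W b P` (a `p`-group as `≤ P`); A2 for the surjection `N_G(X) → (N_G(X)).map mk'`. -/
def S_E2 : Prop := ∀ (p : ℕ), p.Prime → ∀ (G : Type) [Group G] [Finite G] (N P : Subgroup G) [N.Normal],
  (Nat.card N).Coprime p → IsPGroup p P → ∀ b : Bool, IsPNil p (Nm (W b P)) →
    IsPNil p (Nm (W b (P.map (QuotientGroup.mk' N))))

/-! ### F. Coprime actions -/

/-- **F1**. In a ring of characteristic `p` odd (only `(p : R) = 0` is needed), `n * n = 0`, `x` a unit with
`x ^ m = 1`, `m` prime to `p`; if `x` commutes with `(1 + n) x (1 - n)` and with `(1 - n) x (1 + n)` then `x`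
commutes with `n`.  Proof: `(1+n)x(1-n) = x + a - b`, `(1-n)x(1+n) = x - a - b` with `a = n x - x n`,
`b = n x n`.  Difference: `2 a` commutes with `x`, and 2 is invertible (`2 * ((p+1)/2) = 1` in `R`), so `a`
commutes with `x`.  Put `φ y = x y x⁻¹`, `d = φ n - n`; `a = n x - x n = -(d x)`, so `φ d = d`, so
`φ^k n = n + k d`, and `φ^m = id` gives `m d = 0`, so `d = 0` (Bezout: `u m + v p = 1`, `p d = 0`). -/
def S_F1 : Prop := ∀ (R : Type) [Ring R] (p m : ℕ), p.Prime → p ≠ 2 → (p : R) = 0 → m.Coprime p →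
  ∀ (x : Rˣ) (n : R), n * n = 0 → x ^ m = 1 →
    Commute ((1 + n) * x * (1 - n)) (x : R) → Commute ((1 - n) * x * (1 + n)) (x : R) →
    Commute n (x : R)

/-- **F2**. Quadratic action.  `V₁` a subgroup of an abelian group `V` with `v ^ p = 1`; `Γ` acts on `V`;
`Q` an abelian subgroup of order prime to `p`, normalized by `z`; `V₁` stable under `Q` and `z^{±1}`.  If `z`
acts quadratically on `V₁` (`z(zv / v) = zv / v`) then for all `x ∈ Q` the elements `z x z⁻¹` and `x` act in the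
same way on `V₁`.  Proof: F1 in `R = AddMonoid.End (Additive V₁)` with `n = z - 1` (so `n * n = 0`,
`z⁻¹ = 1 - n`), `x` the unit given by the action of `x ∈ Q`, `m = card Q`; `z x z⁻¹` and `z⁻¹ x z` are in `Q`,
so commute with `x`.  So `n x = x n`, `z x = x z` on `V₁`, so `z x z⁻¹ = x` there. -/
def S_F2 : Prop := ∀ (p : ℕ), p.Prime → p ≠ 2 → ∀ (Γ V : Type) [Group Γ] [CommGroup V]
  [MulDistribMulAction Γ V] (Q : Subgroup Γ) (V₁ : Subgroup V) (z : Γ), Finite Γ → (∀ v ∈ V₁, v ^ p = 1) →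
  IsAb Q → (Nat.card Q).Coprime p → (∀ x ∈ Q, z * x * z⁻¹ ∈ Q ∧ z⁻¹ * x * z ∈ Q) →
  (∀ x ∈ Q, ∀ v ∈ V₁, x • v ∈ V₁) → (∀ v ∈ V₁, z • v ∈ V₁ ∧ z⁻¹ • v ∈ V₁) →
  (∀ v ∈ V₁, z • (z • v / v) = z • v / v) → ∀ x ∈ Q, ∀ v ∈ V₁, (z * x * z⁻¹) • v = x • v

/-- **F3**. Cyclic case of the size inequality (assume F2).  Same situation, `a` normalizes `Q`, `Q` acts
faithfully on `V₁`, and `a ^ (p ^ k)` does not centralize `Q`: then `p ^ (2 (k + 1)) · |C_{V₁}(a)| ≤ |V₁|`.
Proof: `z = a ^ (p ^ k)` does not act quadratically on `V₁`: otherwise by F2 `z x z⁻¹ = x` on `V₁` for all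
`x ∈ Q`, and `z x z⁻¹ ∈ Q` (iterate), so `z x z⁻¹ = x` by faithfulness.  In the ring
`AddMonoid.End (Additive V₁)`, of characteristic `p`, put `N = a - 1`: `N ^ (p ^ k) = z - 1`
(`sub_pow_char_pow` for commuting elements, or binomial), so `N ^ (2 p ^ k) ≠ 0`.  The subgroups
`V₁ ≥ N V₁ ≥ N² V₁ ≥ … ≥ N ^ (2 p ^ k) V₁ ≠ 0` are strictly decreasing (`N` is nilpotent because `a` has finite
order... if `N^i V₁ = N^(i+1) V₁ ≠ 0` for some `i` this persists; to exclude it write the order of `a` on the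
nonzero stable part: it is enough to ASSUME in addition, as stated, that `a` has order a power of `p`, then
`N ^ (p ^ r) = a ^ (p ^ r) - 1 = 0` for large `r`), each of index at least `p` in the previous one, so
`|N V₁| ≥ p ^ (2 p ^ k) ≥ p ^ (2 (k + 1))` (`p ^ k ≥ k + 1`), and `|N V₁| · |ker N| = |V₁|`, `ker N = C_{V₁}(a)`. -/
def S_F3 : Prop := ∀ (p : ℕ), p.Prime → p ≠ 2 → ∀ (Γ V : Type) [Group Γ] [CommGroup V]
  [MulDistribMulAction Γ V] (Q : Subgroup Γ) (V₁ : Subgroup V) (a : Γ) (k r : ℕ), Finite Γ → Finite V →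
  (∀ v ∈ V₁, v ^ p = 1) → IsAb Q → (Nat.card Q).Coprime p → (∀ x ∈ Q, a * x * a⁻¹ ∈ Q ∧ a⁻¹ * x * a ∈ Q) →
  (∀ x ∈ Q, ∀ v ∈ V₁, x • v ∈ V₁) → (∀ v ∈ V₁, a • v ∈ V₁ ∧ a⁻¹ • v ∈ V₁) →
  (∀ x ∈ Q, (∀ v ∈ V₁, x • v = v) → x = 1) → a ^ p ^ r = 1 →
  (∃ x ∈ Q, a ^ p ^ k * x ≠ x * a ^ p ^ k) →
  p ^ (2 * (k + 1)) * Nat.card {v : V // v ∈ V₁ ∧ a • v = v} ≤ Nat.card V₁

/-- **F4**. `B` a `p`-subgroup, `x` of order prime to `p` (`x ^ m = 1`) commuting with `B`, acting trivially on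
`C_V(B)`: then `x` acts trivially on `V` (`v ^ p = 1` on `V`, `V` finite).  Proof: `V_x = {x v / v}` is a
subgroup (image of the endomorphism `x - 1`), stable under `B`; if it is nontrivial the `p`-group `B` acting on
the `p`-group `V_x` has a fixed point `v ≠ 1` (`IsPGroup.exists_fixed_point_of_prime_dvd_card_of_fixed_point`),
`v = x w / w`, and `x v = v` since `v ∈ C_V(B)`; so `x^j w = v^j w`, `j = m`: `v ^ m = 1`, and `v ^ p = 1`, so
`v = 1`. -/
def S_F4 : Prop := ∀ (p : ℕ), p.Prime → ∀ (Γ V : Type) [Group Γ] [CommGroup V]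
  [MulDistribMulAction Γ V] (B : Subgroup Γ) (x : Γ) (m : ℕ), Finite Γ → Finite V → (∀ v : V, v ^ p = 1) →
  IsPGroup p B → m.Coprime p → x ^ m = 1 → (∀ b ∈ B, b * x = x * b) →
  (∀ v : V, (∀ b ∈ B, b • v = v) → x • v = v) → ∀ v : V, x • v = v

/-- **F5**. Norm argument.  `Q` an abelian group of order prime to `p` inside `Γ`, `b`, `c` commuting elements
normalizing `Q`, `b ^ p` and `c ^ p` centralize `Q`; `C` a subgroup of `Q` such that an element `x ∈ Q` that
commutes with `b ^ i c ^ j` for some `(i, j)` with `0 ≤ i, j < p`, `(i, j) ≠ (0, 0)`, lies in `C`.  Then `Q ≤ C`.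
Proof: write `g x` for `g x g⁻¹`, `N_g(x) = ∏_{j < p} g^j x` (it commutes with `g`, if `g^p` centralizes `Q`).
Every `(s, t) ≠ (0, 0)` in `(Z/p)²` lies on exactly one of the `p + 1` lines generated by `(1, i)`, `i < p`, and
`(0, 1)`; so `∏_{i < p} N_{b c^i}(x) · N_c(x) = x ^ p · ∏_{s, t < p} (b^s c^t) x`.  The last product `N_E(x)`
commutes with `b`, so lies in `C`; the other factors lie in `C`; so `x ^ p ∈ C`, and `x ∈ C` since the order of
`x` is prime to `p`. -/
def S_F5 : Prop := ∀ (p : ℕ), p.Prime → ∀ (Γ : Type) [Group Γ] [Finite Γ] (Q C : Subgroup Γ) (b c : Γ),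
  IsAb Q → (Nat.card Q).Coprime p → (∀ x ∈ Q, b * x * b⁻¹ ∈ Q) → (∀ x ∈ Q, c * x * c⁻¹ ∈ Q) →
  b * c = c * b → (∀ x ∈ Q, b ^ p * x = x * b ^ p) → (∀ x ∈ Q, c ^ p * x = x * c ^ p) →
  (∀ x ∈ Q, ∀ i j : ℕ, i < p → j < p → (i, j) ≠ (0, 0) → b ^ i * c ^ j * x = x * (b ^ i * c ^ j) → x ∈ C) →
  Q ≤ C

/-- **F6**. A finite abelian group `A` of order a power of `p` and a proper subgroup `B` such that for all
`b, c ∈ A` with `b ^ p, c ^ p ∈ B`, `b ∉ B`, there are `i, j < p`, `(i, j) ≠ (0, 0)`, `b ^ i c ^ j ∈ B`: then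
`A = B ⟨a⟩` for some `a`.  Proof: in `X = A ⧸ B` the solutions of `x ^ p = 1` are the powers of one of them, so
at most `p`; by induction on `k` at most `p ^ k` solutions of `x ^ (p ^ k) = 1` (`x ↦ x ^ p` has fibres of size
at most `p`), so `X` is cyclic (`isCyclic_of_card_pow_eq_one_le`; for `n` general use `gcd (n, card X)`, a power
of `p`); `a` a lift of a generator. -/
def S_F6 : Prop := ∀ (p : ℕ), p.Prime → ∀ (A : Type) [CommGroup A] [Finite A] (B : Subgroup A),
  (∃ k, Nat.card A = p ^ k) → B ≠ ⊤ →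
  (∀ b c : A, b ^ p ∈ B → c ^ p ∈ B → b ∉ B → ∃ i j : ℕ, i < p ∧ j < p ∧ (i, j) ≠ (0, 0) ∧
    b ^ i * c ^ j ∈ B) → ∃ a : A, B ⊔ zpowers a = ⊤

/-- **F7**. (Assume F5, F6.)  `A` an abelian `p`-subgroup normalizing the abelian `p'`-subgroup `Q`, not
centralizing it.  There are `B ≤ A`, `B ≠ A`, and `a ∈ A` with `A = B ⟨a⟩`, and `B = C_A(C_Q(B))`.  Proof: choose
`B ≤ A` of greatest order with `C_Q(B) ≠ C_Q(A)` (`⊥` qualifies); write `Q₁ = C_Q(B)`, `C = C_Q(A) < Q₁`.
`B' = C_A(Q₁) ≥ B` has `C_Q(B') ≥ Q₁ ≥ C_Q(B')`, so `B' = B`.  For `g ∈ A`, `g ∉ B`: `B ⟨g⟩` is greater, so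
`C_Q(B⟨g⟩) = C`, i.e. an element of `Q₁` commuting with `g` is in `C`.  If `b, c ∈ A`, `b ^ p, c ^ p ∈ B` and no
`b ^ i c ^ j`, `(i, j) ≠ (0, 0)`, is in `B`, then F5 (for `Q₁`) gives `Q₁ ≤ C`, contradiction.  So F6 applies to
`A` (as a group) and `B`. -/
def S_F7 : Prop := ∀ (p : ℕ), p.Prime → ∀ (Γ : Type) [Group Γ] [Finite Γ] (A Q : Subgroup Γ),
  IsAb A → IsPGroup p A → IsAb Q → (Nat.card Q).Coprime p → (∀ g ∈ A, ∀ x ∈ Q, g * x * g⁻¹ ∈ Q) →
  (∃ g ∈ A, ∃ x ∈ Q, g * x ≠ x * g) →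
  ∃ B : Subgroup Γ, B < A ∧ (∃ a ∈ A, A = B ⊔ zpowers a) ∧
    ∀ g ∈ A, (∀ x ∈ Q, (∀ b ∈ B, b * x = x * b) → g * x = x * g) → g ∈ B

/-- **F8**. Size inequality (assume F3, F4, F7): `A` an abelian `p`-subgroup of `Γ`, `p` odd, normalizing the
abelian `p'`-subgroup `Q`, acting faithfully on it by conjugation; `Q` acts faithfully on the finite abelian
group `V` with `v ^ p = 1`.  Then `|A|² |C_V(A)| ≤ |V|`.  Proof by induction on `|A|`.  `A = ⊥`: clear.
Otherwise `A` does not centralize `Q`; take `B`, `a` from F7; `Q₁ = C_Q(B)`, `V₁ = C_V(B)`: both are stable under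
`A` (abelian) and `Q₁` acts on `V₁`, faithfully by F4.  Let `k + 1 ≥ 1` be least with `a ^ (p ^ (k+1)) ∈ B`
(`a ∉ B` since `B < A`; the order of `a` is a power of `p`); then `|A : B| = p ^ (k + 1)` and `a ^ (p ^ k) ∉ B`,
so by the last clause of F7 it does not centralize `Q₁`.  F3 (with `Q₁`, `V₁`):
`p ^ (2(k+1)) |C_{V₁}(a)| ≤ |V₁|`, and `C_{V₁}(a) = C_V(A)`.  Induction for `B`: `|B|² |V₁| ≤ |V|`.  Multiply. -/
def S_F8 : Prop := ∀ (p : ℕ), p.Prime → p ≠ 2 → ∀ (Γ V : Type) [Group Γ] [CommGroup V]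
  [MulDistribMulAction Γ V] (A Q : Subgroup Γ), Finite Γ → Finite V → (∀ v : V, v ^ p = 1) →
  IsAb A → IsPGroup p A → IsAb Q → (Nat.card Q).Coprime p → (∀ g ∈ A, ∀ x ∈ Q, g * x * g⁻¹ ∈ Q) →
  (∀ g ∈ A, (∀ x ∈ Q, g * x = x * g) → g = 1) → (∀ x ∈ Q, (∀ v : V, x • v = v) → x = 1) →
  Nat.card A ^ 2 * Nat.card {v : V // ∀ g ∈ A, g • v = v} ≤ Nat.card V

/-- **F9**. `V` a finite abelian `p`-group with an action of `Γ`, `x ∈ Γ`, and `x ^ m` acts trivially, `m` prime
to `p`; if `x v / v` is a `p`-th power for all `v` then `x` acts trivially.  Proof: write `V` additively,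
`N = x - 1`, `N V ⊆ p V`, so `N^j V ⊆ p^j V` (as `N` commutes with `p`), `N^j = 0` for large `j`.  On the other
hand `x^m = 1`.  If `N ≠ 0` let `i` be greatest with `N^i V ≠ 0` (`i ≥ 1`), pick `w ∈ N^(i-1) V` with
`v = N w ≠ 0`, `N v = 0`; then `x^j w = w + j v`, so `m v = 0`, and the order of `v` is a power of `p`: `v = 0`,
contradiction. -/
def S_F9 : Prop := ∀ (p : ℕ), p.Prime → ∀ (Γ V : Type) [Group Γ] [CommGroup V]
  [MulDistribMulAction Γ V] (x : Γ) (m : ℕ), Finite V → IsPGroup p V → m.Coprime p →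
  (∀ v : V, x ^ m • v = v) → (∀ v : V, ∃ w : V, x • v / v = w ^ p) → ∀ v : V, x • v = v

/-! ### G. The structure of the minimal configuration -/

/-- `H` with a normal abelian `p'`-subgroup `K`, complement `P`, maximal -/
def Frame (p : ℕ) {H : Type} [Group H] (P K : Subgroup H) : Prop :=
  IsSyl p P ∧ K.Normal ∧ (Nat.card K).Coprime p ∧ K ⊔ P = ⊤ ∧ K ≠ ⊥ ∧ P ≠ ⊥ ∧ IsAb K ∧
    (∀ L : Subgroup H, L ≤ K → (∀ g ∈ P, ∀ x ∈ L, g * x * g⁻¹ ∈ L) → L = ⊥ ∨ L = K) ∧
    ∀ g ∈ P, (∀ x ∈ K, g * x = x * g) → g = 1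

/-- **G1**. `H` finite, `P ≠ ⊤` a maximal subgroup and a Sylow `p`-subgroup, `P ≠ ⊥`, `H` p-nil, `O_p(H) = 1`:
there is `K` with `Frame p P K`.  Proof: `K` the normal `p`-complement.  `K P = H` (orders), `K ≠ ⊥` since
`P ≠ ⊤`.  For `L ≤ K` normalized by `P`: `L ⊔ P` (= `L P`) contains `P`, so it is `P` or `⊤`; in the first case
`L ≤ P ∩ K = ⊥`; in the second `K = K ∩ L P = L (K ∩ P) = L`.  `K` abelian: let `q` be a prime divisor of
`card K`, `S` a Sylow `q`-subgroup of `K`; by the Frattini argument (`Sylow.normalizer_sup_eq_top`) `K` and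
`N_H(S)` generate `H`, so the index of `N_H(S)` divides `card K`..., is prime to `p`, and `N_H(S)` contains a
Sylow `p`-subgroup of `H`, i.e. a conjugate `g P g⁻¹`; so `P` normalizes `g⁻¹ S g`, which is `≠ ⊥`, so `= K`;
`K` is a `q`-group, its centre is nontrivial and normalized by `P`, so it is `K`.  Last clause: `C = C_H(K)` is
normal and contains `K`; `D = C ⊓ P` is normalized by `P` and centralized by `K`, so normal in `H = K P`, a
`p`-group, so `D ≤ O_p(H) = ⊥`. -/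
def S_G1 : Prop := ∀ (p : ℕ), p.Prime → ∀ (H : Type) [Group H] [Finite H] (P : Subgroup H),
  IsSyl p P → P ≠ ⊥ → P ≠ ⊤ → (∀ M : Subgroup H, P ≤ M → M = P ∨ M = ⊤) → IsPNil p H →
  IsOp p (⊥ : Subgroup H) → ∃ K : Subgroup H, Frame p P K

/-- **G2**. (Assume D2, F8, F9.)  The `J`-step.  `G` finite, `p` odd, `P` Sylow, `U` a normal `p`-subgroup,
`U ≤ P`, `C_G(U) ≤ U`, the normalizer of `Z(P)` is `P`, and `Frame p (P.map mk') K` in `G ⧸ U`: every abelian
subgroup `A` of `P` of greatest order lies in `U`.  Proof: `V = Z(U)`, an abelian normal subgroup of `G`; `G ⧸ U`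
acts on `V` by conjugation and on `V̄ = V / V^p` (`v ^ p = 1` there).  `K` acts faithfully on `V̄`: let `x ∈ K`
act trivially; `x ^ m = 1` with `m = card K`; by F9 `x` acts trivially on `V`; let `g ∈ G` be a lift; `g`
centralizes `V ≥ Z(P)` (`Z(P) ≤ C_G(U) ≤ U`, so `Z(P) ≤ Z(U)`), so `g ∈ C_G(Z(P)) ≤ N_G(Z(P)) = P`, so
`x ∈ K ∩ (P/U) = 1`.  Let `Ā` be the image of `A`: abelian `p`-group, acts faithfully on `K` (last clause of
`Frame`).  F8: `|Ā|² |C_V̄(Ā)| ≤ |V̄|`.  The image of `C_V(A)` in `V̄` lies in `C_V̄(Ā)` and its index in `V̄` is at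
most `|V : C_V(A)|`; so `|Ā|² ≤ |V : C_V(A)|`.  Also `A ∩ U` centralizes `V = Z(U)` and `V` is abelian, so
`V (A ∩ U)` is an abelian subgroup of `P`, of order `|V| |A ∩ U| / |V ∩ A|` (`V ∩ (A ∩ U) = V ∩ A`), so
`|V| |A ∩ U| ≤ |A| |V ∩ A|`, and `V ∩ A ≤ C_V(A)` as `A` is abelian:
`|V : C_V(A)| ≤ |V| / |V ∩ A| ≤ |A| / |A ∩ U| = |Ā|`.  So `|Ā|² ≤ |Ā|`, `|Ā| = 1`, `A ≤ U`. -/
def S_G2 : Prop := ∀ (p : ℕ), p.Prime → p ≠ 2 → ∀ (G : Type) [Group G] [Finite G] (P U : Subgroup G)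
  [U.Normal], IsSyl p P → IsPGroup p U → U ≤ P → centralizer (U : Set G) ≤ U → Nm (W false P) = P →
  ∀ K : Subgroup (G ⧸ U), Frame p (P.map (QuotientGroup.mk' U)) K →
    ∀ A : Subgroup G, IsMaxAb P A → A ≤ U

/-- **G3**. (Assume A4, A5, A6, C1, G1.)  Set-up.  `G` finite, `P` Sylow, not normal, `G` not p-nil, no
nontrivial normal `p'`-subgroup, `U = O_p(G)`, `G ⧸ U` p-nil, `U ≠ ⊥` not needed, every `M ≥ P`, `M ≠ ⊤`, is
p-nil.  Then `C_G(U) ≤ U`, `U ≤ P`, every `M ≥ P` is `P` or `⊤`, and there is `K` with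
`Frame p (P.map mk') K`.  Proof: C1; A5 for `U ≤ P`; A4 for the maximality of `P` (`M ≠ ⊤` is p-nil, `U ≤ P ≤ M`);
then `H = G ⧸ U` with the image `P̄`: Sylow by A6; maximal by the correspondence theorem (`U ≤ P`); `P̄ ≠ ⊤` since
`P ≠ ⊤` (`P` not normal); `P̄ ≠ ⊥` since `P ≠ U` (`U` is normal); `O_p(H) = 1` by A5; G1. -/
def S_G3 : Prop := ∀ (p : ℕ), p.Prime → ∀ (G : Type) [Group G] [Finite G] (P U : Subgroup G) [U.Normal],
  IsSyl p P → ¬ P.Normal → NoPp p G → IsOp p U → IsPNil p (G ⧸ U) →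
  (∀ M : Subgroup G, P ≤ M → M ≠ ⊤ → IsPNil p M) →
  centralizer (U : Set G) ≤ U ∧ U ≤ P ∧ (∀ M : Subgroup G, P ≤ M → M = P ∨ M = ⊤) ∧
    ∃ K : Subgroup (G ⧸ U), Frame p (P.map (QuotientGroup.mk' U)) K

/-- **G4**. (Assume A2, A5, A6, D1, D2 and Thompson's theorem TH for groups of smaller order, in the form
below.)  `G ⧸ U` is p-nil: `P` Sylow, `U = O_p(G) ≠ ⊥`, every `M ≥ P`, `M ≠ ⊤`, is p-nil.  Proof: let
`P̄ = P.map mk'`.  If `P̄ = ⊥` then `G ⧸ U` has order prime to `p` and is p-nil.  Otherwise, for each `b`,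
`X̄ = W b P̄ ≠ ⊥` (D2), so `X = comap` is a subgroup with `U < X`, a `p`-group as `X̄ ≤ P̄`, so it is not normal in
`G`, so `N_G(X) ≠ ⊤`; `P ≤ N_G(X)` as `P̄` normalizes `X̄` (D2); so `N_G(X)` is p-nil, and
`N_{G/U}(X̄) = N_G(X) / U` is p-nil (A2).  By the hypothesis for the smaller group `G ⧸ U`, it is p-nil. -/
def S_G4 : Prop := ∀ (p : ℕ), p.Prime → ∀ (G : Type) [Group G] [Finite G] (P U : Subgroup G) [U.Normal],
  IsSyl p P → IsOp p U → U ≠ ⊥ → (∀ M : Subgroup G, P ≤ M → M ≠ ⊤ → IsPNil p M) →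
  (∀ (R : Subgroup (G ⧸ U)), IsSyl p R → (∀ b : Bool, IsPNil p (Nm (W b R))) → IsPNil p (G ⧸ U)) →
  IsPNil p (G ⧸ U)

/-- **G5**. (Assume A1, A6, B3, D1, D2.)  The choice of `U`.  `G` finite, `P` Sylow, not p-nil,
`N_G(W b P)` p-nil for both `b`, and the theorem holds for all proper subgroups of `G` (in the form below).  Then
`G` has a nontrivial normal `p`-subgroup.  Proof: by Frobenius (B3) some nontrivial `p`-subgroup `U` has `N_G(U)`
not p-nil; choose one with the `p`-part of `card (N_G(U))` greatest.  Let `R ≤ N = N_G(U)` be Sylow in `N` (A6),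
replace `U`, `R` by conjugates such that `R ≤ P` (all is invariant under conjugation).  Suppose `N ≠ ⊤`.  Claim:
`N_G(W b R)` is p-nil for both `b`.  If `R = P` this is the hypothesis.  If `R < P`: `R ≥ U`... `R ≠ ⊥`, since
`U` is a `p`-subgroup, normal in `N`, so `U ≤ R`; `W b R ≠ ⊥` (D2), and `N_G(W b R) ≥ N_P(R) > R` (normalizers
grow in `p`-groups) so the `p`-part of its order is greater than `card R`, the `p`-part of `card N`; by the
choice of `U` it is p-nil.  Then `N_N(W b R)` is (isomorphic to) a subgroup of it, so p-nil, and by the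
hypothesis for `N` the group `N` is p-nil: contradiction.  So `N = ⊤` and `U` is normal. -/
def S_G5 : Prop := ∀ (p : ℕ), p.Prime → ∀ (G : Type) [Group G] [Finite G] (P : Subgroup G),
  IsSyl p P → ¬ IsPNil p G → (∀ b : Bool, IsPNil p (Nm (W b P))) →
  (∀ M : Subgroup G, M ≠ ⊤ → ∀ R : Subgroup G, R ≤ M → IsSyl p (R.subgroupOf M) →
    (∀ b : Bool, IsPNil p (Nm (W b R))) → IsPNil p M) →
  ∃ U : Subgroup G, U.Normal ∧ IsPGroup p U ∧ U ≠ ⊥

/-- **G6**. (Assume A1, A2, D1.)  Passing to a subgroup `M ≥ R`: `N_M(W b R)` is p-nil if `N_G(W b R)` is.  Proof: by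
D1 for `M.subtype`, `(W b (R.subgroupOf M)).map M.subtype = W b R`; so `M.subtype` maps
`Nm (W b (R.subgroupOf M))` injectively into `Nm (W b R)`; it is isomorphic to a subgroup of a p-nil group
(A1 for the range inside `Nm (W b R)`, A2 for the isomorphism). -/
def S_G6 : Prop := ∀ (p : ℕ), p.Prime → ∀ (G : Type) [Group G] [Finite G] (R M : Subgroup G), R ≤ M →
  ∀ b : Bool, IsPNil p (Nm (W b R)) → IsPNil p (Nm (W b (R.subgroupOf M)))

/-- **TH = Thompson's theorem** (assembled by helper2 from A1-A6, D1, D2, E2, G2-G5): `p` odd, `P` Sylow,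
`N_G(Z(P))` and `N_G(J(P))` p-nil: `G` is p-nil. -/
def S_TH : Prop := ∀ (p : ℕ), p.Prime → p ≠ 2 → ∀ (G : Type) [Group G] [Finite G] (P : Subgroup G),
  IsSyl p P → (∀ b : Bool, IsPNil p (Nm (W b P))) → IsPNil p G

/-! ### M. The main theorem -/

/-- **M1**. Quotients of p-supersolvable groups are p-supersolvable; and chief factors correspond.  Proof: a chief
factor `(K, H)` of `G ⧸ N` gives the chief factor `(comap K, comap H)` of `G`, with the same `relIndex`
(`relIndex_comap` / surjectivity). -/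
def S_M1 : Prop := ∀ (p : ℕ), p.Prime → ∀ (G H : Type) [Group G] [Group H] [Finite G] [Finite H]
  (f : G →* H), Function.Surjective f → IsPSS p G → IsPSS p H

/-- **M2**. `D` normal, `G ⧸ D` p-supersolvable, every chief factor `(K, H)` of `G` with `H ≤ D` has order `p` or
prime to `p`: `G` is p-supersolvable.  Proof: let `(K, H)` be a chief factor of `G`.  `L = K ⊔ (H ⊓ D)` is normal,
between `K` and `H`.  If `L = H`: `H ⊓ D / K ⊓ D` is `G`-isomorphic to `H / K` (the map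
`H ⊓ D → H / K` is onto with kernel `K ⊓ D`), so it is a chief factor (a normal subgroup `M` between gives
`K ⊔ M` between `K` and `H`, and `(K ⊔ M) ⊓ D ⊓ H = (K ⊓ D) ⊔ M` by the modular law) inside `D`, same order.  If
`L = K`: `H ⊓ D ≤ K`; then `(K D / D, H D / D)` is a chief factor of `G ⧸ D` of the same order: `H D ⊇ K D`,
`H ∩ K D = K (H ∩ D) = K`; a normal subgroup between gives by intersection with `H` one between `K` and `H`. -/
def S_M2 : Prop := ∀ (p : ℕ), p.Prime → ∀ (G : Type) [Group G] [Finite G] (D : Subgroup G) [D.Normal],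
  IsPSS p (G ⧸ D) → (∀ K H : Subgroup G, IsChief K H → H ≤ D →
    K.relIndex H = p ∨ (K.relIndex H).Coprime p) → IsPSS p G

/-- **M3**. (Assume M1, M2.)  Subgroups of p-supersolvable groups are p-supersolvable.  Proof by induction on
`card G`: `G` trivial: clear.  Otherwise let `N` be a minimal normal subgroup of `G`: `(⊥, N)` is a chief factor,
so `card N = p` or prime to `p`.  `G ⧸ N` is p-supersolvable (M1), smaller, so its subgroup `M N / N`, isomorphic
to `M / (M ∩ N)`, is.  Every chief factor `(K, H)` of `M` with `H ≤ M ∩ N` has order dividing `card N`, so it is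
`p` or prime to `p` (a divisor of `p`, not 1).  M2 with `D = N.subgroupOf M`. -/
def S_M3 : Prop := ∀ (p : ℕ), p.Prime → ∀ (G : Type) [Group G] [Finite G], IsPSS p G →
  ∀ M : Subgroup G, IsPSS p M

/-- **M4**. (Assume M3.)  `M^(U_p) ≤ G^(U_p)`.  Proof: for `N` normal in `G` with `G ⧸ N` p-supersolvable,
`M ⧸ (N.subgroupOf M)` is isomorphic to a subgroup of `G ⧸ N` so it is p-supersolvable (M3 and transport along
the isomorphism onto the range, M1), so `superRes p M ≤ N.subgroupOf M`. -/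
def S_M4 : Prop := ∀ (p : ℕ), p.Prime → ∀ (G : Type) [Group G] [Finite G] (M : Subgroup G),
  (superRes p M).map M.subtype ≤ superRes p G

/-- **M5**. (Assume M1.)  `N` a normal `p'`-subgroup, `y` of order a power of `p`, `yN` in the residual of
`G ⧸ N`: `y` is in the residual of `G`.  Proof: let `L` be normal with `G ⧸ L` p-supersolvable.  `G ⧸ (L ⊔ N)` is
a quotient of it, and also the quotient of `G ⧸ N` by the image of `L ⊔ N`; so `yN ∈ (L ⊔ N) / N`, `y ∈ L ⊔ N`.
The image of `y` in `G ⧸ L` lies in the image of `N`, whose order is prime to `p`, and it has order a power of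
`p`, so it is trivial: `y ∈ L`. -/
def S_M5 : Prop := ∀ (p : ℕ), p.Prime → ∀ (G : Type) [Group G] [Finite G] (N : Subgroup G) [N.Normal],
  (Nat.card N).Coprime p → ∀ (y : G) (k : ℕ), y ^ p ^ k = 1 →
  (QuotientGroup.mk' N y) ∈ superRes p (G ⧸ N) → y ∈ superRes p G

/-- **M6**. (Assume M2 if useful.)  p-nil groups are p-supersolvable; and `superRes p G ≤ U` if `U` is normal and
`G ⧸ U` is p-nil; `superRes p G = ⊥` if `G` is p-nil.  Proof: `N` the normal `p`-complement, `(K, H)` a chief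
factor.  `L = K ⊔ (H ⊓ N)` is `K` or `H`.  If `L = H` then `H / K` is a quotient of `H ⊓ N`, of order prime to
`p`.  If `L = K` then `H ⊓ N ≤ K`, so `⁅H, N⁆ ≤ H ⊓ N ≤ K`; `H / K` has order dividing `|H / (H ∩ N)| = |HN/N|`, a
power of `p`.  The group `G` acts on `H / K` by conjugation through the `p`-group `G / N` (`N` acts trivially), a
`p`-group acting on a nontrivial `p`-group has a fixed point `≠ 1`, a central element `hK` of `G / K` in `H / K`,
and a power of it has order `p`; the subgroup generated is normal, so it is `H / K`: order `p`. -/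
def S_M6 : Prop := ∀ (p : ℕ), p.Prime → ∀ (G : Type) [Group G] [Finite G],
  (IsPNil p G → IsPSS p G ∧ superRes p G = ⊥) ∧
  ∀ (U : Subgroup G) (_ : U.Normal), IsPNil p (G ⧸ U) → superRes p G ≤ U

/-- **M7**. `G` finite, `P` Sylow, `U` a normal `p`-subgroup, `U ≤ P`, `N` normal with `G ⧸ N` p-supersolvable,
`q ∈ ⁅K, P⁆` of order prime to `p` (`q ^ m = 1`), `K` a normal subgroup.  Then `u q u⁻¹ q⁻¹ ∈ N` for all `u ∈ U`.
Proof: consider the normal subgroups `L` of `G` with `N ≤ L ≤ U ⊔ N` such that `ℓ q ℓ⁻¹ q⁻¹ ∈ N` for all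
`ℓ ∈ L`; `N` is one; take one of greatest order `L₀`; suppose `L₀ < U ⊔ N`.  Take `L₁` normal minimal with
`L₀ < L₁ ≤ U ⊔ N`: `(L₀, L₁)` is a chief factor of `G`, of order a power of `p` times... its order divides
`|UN / N|`, a power of `p`, and (M1 backwards: chief factors of `G` above `N` are chief factors of `G ⧸ N`) it is
`p` or prime to `p`, so it is `p`.  `G` acts on the group `L₁ / L₀` of order `p`, whose automorphism group is
abelian of order `p - 1`; the `p`-group `P` acts trivially; the elements of `⁅K, P⁆` act trivially (commutators;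
the kernel of the action is normal and contains `P`, so it contains `⁅K, P⁆`).  So `q` acts trivially on
`L₁ / L₀` and on `L₀ / N`: for `ℓ ∈ L₁` put `c = q ℓ q⁻¹ ℓ⁻¹ ∈ L₀` modulo `N`; `q` fixes `c` modulo `N`; so
`q^j ℓ q^{-j} = c^j ℓ` modulo `N`, so `c ^ m ∈ N`, and `c` has order a power of `p` modulo `N`, so `c ∈ N`:
`L₁` is in the family, contradiction. -/
def S_M7 : Prop := ∀ (p : ℕ), p.Prime → ∀ (G : Type) [Group G] [Finite G] (P U K N : Subgroup G) [N.Normal],
  IsSyl p P → U.Normal → IsPGroup p U → K.Normal → IsPSS p (G ⧸ N) →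
  ∀ (q : G) (m : ℕ), q ∈ ⁅K, P⁆ → m.Coprime p → q ^ m = 1 → ∀ u ∈ U, u * q * u⁻¹ * q⁻¹ ∈ N

/-- **M8**. (Assume M7.)  In the set-up of G3 let `K₀ = comap of K` (normal in `G`, `U ≤ K₀`).  There is
`q ∈ K₀` with `q ^ m = 1`, `m` prime to `p`, not commuting with all elements of `superRes p G`.  Proof: `P̄` does
not centralize `K` (`P̄ ≠ ⊥` and the last clause of `Frame`), so `⁅K₀, P⁆`, a subgroup of `K₀`, is not contained in
`U`.  It is not a `p`-group: it is `≤ K₀` and its image in `K` is a nontrivial group of order prime to `p`.  So it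
contains `q ≠ 1` with `q ^ m = 1`, `m` prime to `p` (Cauchy).  `q` does not centralize `U` since
`C_G(U) ≤ U` is a `p`-group.  For all `u ∈ U`: `c = u q u⁻¹ q⁻¹ ∈ superRes p G` by M7.  If `q` commuted with all
elements of `superRes p G`, then `q c = c q`, `u q u⁻¹ = c q`, so `1 = u q^m u⁻¹ = c^m`, and `c ∈ U` is a
`p`-element, so `c = 1`: `q` centralizes `U`, contradiction. -/
def S_M8 : Prop := ∀ (p : ℕ), p.Prime → ∀ (G : Type) [Group G] [Finite G] (P U : Subgroup G) [U.Normal],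
  IsSyl p P → IsPGroup p U → U ≤ P → centralizer (U : Set G) ≤ U →
  ∀ K : Subgroup (G ⧸ U), Frame p (P.map (QuotientGroup.mk' U)) K →
    ∃ (q : G) (m : ℕ), QuotientGroup.mk' U q ∈ K ∧ m.Coprime p ∧ q ^ m = 1 ∧
      ∃ d ∈ superRes p G, q * d ≠ d * q

/-- **M9**. Minimal `T`.  `D ≤ U` normal in `G`, `U` a normal `p`-subgroup, `K₀` normal, and some `q ∈ K₀` of
order prime to `p` does not commute with some element of `D`.  Then there are normal subgroups `M < T ≤ D` of `G`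
such that: (i) no normal subgroup of `G` lies strictly between `M` and `T` (`IsChief M T`); (ii) every `e ∈ K₀`
with `e ^ m = 1`, `m` prime to `p`, commutes with `M`; (iii) some such `e` has `t e t⁻¹ e⁻¹ ∉ M` for some
`t ∈ T`; (iv) `M` commutes with `T`; (v) `T` is generated by the elements `t e t⁻¹ e⁻¹`, `t ∈ T`, `e ∈ K₀` with
`e ^ m = 1`, `m` prime to `p`.  Proof: let `E` be the subgroup generated by all `e ∈ K₀` of order prime to `p`
(normal in `G`); `T` a normal subgroup of `G` in `D` of least order with `⁅T, E⁆ ≠ ⊥`.  `⁅T, E⁆` is normal in `G`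
and `≤ T`, and `⁅⁅T, E⁆, E⁆ ≠ ⊥`: take a generator `e` of order prime to `p` with `c = t e t⁻¹ e⁻¹ ≠ 1`
(`T`, `E` do not commute); if `e` commuted with `c` then `t e t⁻¹ = c e`, `1 = c^m`, `c ∈ T` a `p`-element,
`c = 1`.  So `T = ⁅T, E⁆`, which is (v): the subgroup generated by the elements of (v) is normalized by `G`, and
modulo it `T` commutes with the generators of `E`.  `M` a maximal proper subgroup of `T` among the normal
subgroups of `G`: (i); `⁅M, E⁆ = ⊥` by minimality: (ii).  (iii): otherwise `T = ⁅T, E⁆ ≤ M`.  (iv): three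
subgroups lemma: `⁅⁅M, E⁆, T⁆ = ⊥`, `⁅⁅T, M⁆, E⁆ ≤ ⁅M, E⁆ = ⊥`, so `⁅⁅E, T⁆, M⁆ = ⁅T, M⁆ = ⊥`
(`Subgroup.commutator_commutator_eq_bot_of_rotate`). -/
def S_M9 : Prop := ∀ (p : ℕ), p.Prime → ∀ (G : Type) [Group G] [Finite G] (D U K₀ : Subgroup G),
  D.Normal → U.Normal → IsPGroup p U → D ≤ U → K₀.Normal →
  (∃ (q : G) (m : ℕ), q ∈ K₀ ∧ m.Coprime p ∧ q ^ m = 1 ∧ ∃ d ∈ D, q * d ≠ d * q) →
  ∃ M T : Subgroup G, T ≤ D ∧ IsChief M T ∧
    (∀ (e : G) (m : ℕ), e ∈ K₀ → m.Coprime p → e ^ m = 1 → ∀ x ∈ M, e * x = x * e) ∧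
    (∃ (e : G) (m : ℕ), e ∈ K₀ ∧ m.Coprime p ∧ e ^ m = 1 ∧ ∃ t ∈ T, t * e * t⁻¹ * e⁻¹ ∉ M) ∧
    (∀ x ∈ M, ∀ t ∈ T, x * t = t * x) ∧
    T = closure {c : G | ∃ (e t : G) (m : ℕ), e ∈ K₀ ∧ m.Coprime p ∧ e ^ m = 1 ∧ t ∈ T ∧
      c = t * e * t⁻¹ * e⁻¹}

/-- **M10**. In the situation of M9 with `p` odd, `T / M` is elementary abelian and `T` has exponent `p`.  Proof:
`T` is a `p`-group, `(M, T)` a chief factor: `⁅T, T⁆ M` and `T^p M` (generated by `p`-th powers) are normal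
subgroups of `G` between `M` and `T`, proper (nilpotent group `T / M`, Frattini), so `⁅T, T⁆ ≤ M`, `t ^ p ∈ M`.
So `T` has class at most 2 (`M` is central in `T`), and for `x, y ∈ T`: `(x y)^p = x^p y^p ⁅y, x⁆^(p(p-1)/2)`,
`⁅y, x⁆ ^ p = ⁅y ^ p, x⁆ = 1` (`y ^ p ∈ M` central), so `(x y)^p = x^p y^p` as `p` is odd.  Let
`c = t e t⁻¹ e⁻¹` be a generator, `e` of order prime to `p`.  `t ^ p ∈ M` commutes with `e`.  `e t⁻¹ e⁻¹ = t⁻¹ c`
so `(t⁻¹ c)^p = e t^{-p} e⁻¹ = t^{-p}`, and `(t⁻¹ c)^p = t^{-p} c^p`, so `c^p = 1`.  As `x ↦ x ^ p` is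
multiplicative on `T`, `x ^ p = 1` for all `x ∈ T`. -/
def S_M10 : Prop := ∀ (p : ℕ), p.Prime → p ≠ 2 → ∀ (G : Type) [Group G] [Finite G] (M T K₀ : Subgroup G),
  IsPGroup p T → IsChief M T →
  (∀ (e : G) (m : ℕ), e ∈ K₀ → m.Coprime p → e ^ m = 1 → ∀ x ∈ M, e * x = x * e) →
  (∀ x ∈ M, ∀ t ∈ T, x * t = t * x) →
  T = closure {c : G | ∃ (e t : G) (m : ℕ), e ∈ K₀ ∧ m.Coprime p ∧ e ^ m = 1 ∧ t ∈ T ∧
      c = t * e * t⁻¹ * e⁻¹} →
  (∀ x ∈ T, x ^ p = 1) ∧ ∀ x ∈ T, ∀ y ∈ T, x * y * x⁻¹ * y⁻¹ ∈ M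

/-- **M11**. (Assume F2.)  `p` odd; `(M, T)` a chief factor of `G`, `T / M` elementary abelian, `U` a normal
`p`-subgroup, `Frame p (P.map mk') K` in `G ⧸ U`; some `e` with image in `K`, `e ^ m = 1`, `m` prime to `p`, acts
nontrivially on `T / M`.  Then some `z ∈ P`, `t ∈ T` have `c = z t z⁻¹ t⁻¹`, `z c z⁻¹ c⁻¹ ∉ M`.  Proof: `G` acts
on the abelian group `V = T / M` (`v ^ p = 1`); `U` acts trivially: the fixed points of the `p`-group `U` in `V`
are nontrivial and form a normal subgroup (`U` normal), so all of `V`.  So `G ⧸ U` acts on `V`.  Suppose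
`z (z v / v) = z v / v` for all `z ∈ P`, `v ∈ V`.  F2 with `Q = K`, `V₁ = V`: `z x z⁻¹` and `x` act equally on `V`
for `x ∈ K`, `z ∈ P̄`.  Let `L = {x ∈ K : x acts trivially}`: normalized by `P̄`, so `L = ⊥` or `K`; `L ≠ K` since
`e` acts nontrivially; so `L = ⊥`, and `z x z⁻¹ x⁻¹ ∈ L` gives `z x = x z` for all `z ∈ P̄`, `x ∈ K`, so `P̄ = ⊥` by
the last clause of `Frame`; contradiction with `P̄ ≠ ⊥`. -/
def S_M11 : Prop := ∀ (p : ℕ), p.Prime → p ≠ 2 → ∀ (G : Type) [Group G] [Finite G] (P U M T : Subgroup G)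
  [U.Normal], IsPGroup p U → IsPGroup p T → IsChief M T → (∀ x ∈ T, x ^ p ∈ M) →
  (∀ x ∈ T, ∀ y ∈ T, x * y * x⁻¹ * y⁻¹ ∈ M) →
  ∀ K : Subgroup (G ⧸ U), Frame p (P.map (QuotientGroup.mk' U)) K →
  (∃ (e : G) (m : ℕ), QuotientGroup.mk' U e ∈ K ∧ m.Coprime p ∧ e ^ m = 1 ∧
    ∃ t ∈ T, t * e * t⁻¹ * e⁻¹ ∉ M) →
  ∃ z ∈ P, ∃ t ∈ T, z * (z * t * z⁻¹ * t⁻¹) * z⁻¹ * (z * t * z⁻¹ * t⁻¹)⁻¹ ∉ M

/-- **M12**. `P` a finite `p`-group (subgroup of `G`), `y ∈ ⁅P, P⁆` of order `p`, not commuting with some element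
of `P`: `zpowers y` is not c-embedded in `P`.  Proof: let `B` be as in `CEmb`, `H = zpowers y`.  `H ∩ B` is `⊥` or
`H`; if `H`, then `y` commutes with all of `P` (last clause), no.  So `H ∩ B = ⊥` and `|P| = p |B|`, `B` has
index `p` in the `p`-group `P`, so `B` is normal in `P` (`Subgroup.normal_of_index_eq_minFac_card` or p-group
version) with quotient of order `p`, abelian, so `⁅P, P⁆ ≤ B`, `y ∈ B`: contradiction. -/
def S_M12 : Prop := ∀ (p : ℕ), p.Prime → ∀ (G : Type) [Group G] [Finite G] (P : Subgroup G), IsPGroup p P →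
  ∀ y ∈ ⁅P, P⁆, y ^ p = 1 → (∃ g ∈ P, y * g ≠ g * y) → Nat.card (zpowers y) = p ∧ ¬ CEmb (zpowers y) P

/-- **M13**. (Assume M5, E1, A2.)  Reduction modulo a normal `p'`-subgroup `N`: the hypotheses pass to `G ⧸ N`.
Proof: `P̄ = P.map mk'` is Sylow; `N(P̄)` is the image of `N_G(P)` (E1), p-nil (A2).  (2'): let `x̄ ∉ N(P̄)`, `x` a
lift; `H̄` of order `p` with all its elements in `superRes p (G ⧸ N)`, in `P̄` and `x̄ h x̄⁻¹ ∈ P̄`.  Let `ȳ` generate
`H̄`, `y ∈ P` its lift in `P` (unique; `y ^ p = 1`, since `mk'` is injective on `P`).  `x y x⁻¹ ∈ P N`, a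
`p`-element, so it lies in a Sylow subgroup of `P ⊔ N`, i.e. in `n P n⁻¹` with `n ∈ N` (`P ⊔ N = N P`).  So with
`x' = n⁻¹ x`: `x' y x'⁻¹ ∈ P`, and the same for all powers of `y`; `x' ∉ N_G(P)` since its image is `x̄`.
`y ∈ superRes p G` by M5.  So `H = zpowers y` satisfies the hypotheses of (2') for `x'`, and `CEmb H P`; with `B`
take `B.map mk'` for `CEmb H̄ P̄` (last clause: `h̄ = b̄` with `h ∈ H`, `b ∈ B` implies `h = b` by injectivity on
`P`). -/
def S_M13 : Prop := ∀ (p : ℕ), p.Prime → ∀ (G : Type) [Group G] [Finite G] (P N : Subgroup G) [N.Normal],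
  IsSyl p P → (Nat.card N).Coprime p → IsPNil p (Nm P) → Cond p P →
  IsSyl p (P.map (QuotientGroup.mk' N)) ∧ IsPNil p (Nm (P.map (QuotientGroup.mk' N))) ∧
    Cond p (P.map (QuotientGroup.mk' N))

/-- **M14**. (Assume M4, A1, A6.)  The hypotheses pass to subgroups `M ≥ P`.  Proof: `N_M(P)` embeds in
`N_G(P)`.  (2') for `M`, `P.subgroupOf M`: for `x ∈ M` not normalizing and `H ≤ M` of order `p` use `x : G` and
`H.map M.subtype` (elements in `superRes p G` by M4), and translate `CEmb` back with `B.subgroupOf M`. -/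
def S_M14 : Prop := ∀ (p : ℕ), p.Prime → ∀ (G : Type) [Group G] [Finite G] (P M : Subgroup G), P ≤ M →
  IsSyl p P → IsPNil p (Nm P) → Cond p P →
  IsSyl p (P.subgroupOf M) ∧ IsPNil p (Nm (P.subgroupOf M)) ∧ Cond p (P.subgroupOf M)

/-- **MAIN** (assembled by helper2): the answer to Q1. -/
def S_MAIN : Prop := ∀ (p : ℕ), p.Prime → p ≠ 2 → ∀ (G : Type) [Group G] [Finite G] (P : Subgroup G),
  IsSyl p P → (IsPNil p G ↔ IsPNil p (Nm P) ∧ Cond p P)

end Q2.TN
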