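import Mathlib
import Pool.Agent.Q2.TN.Stm

namespace Q2.TN.Asm

open Q2.TN Subgroup

theorem pnil_top (h2 : S_A2) {p : ℕ} (hp : p.Prime) {G : Type} [Group G] [Finite G] {X : Subgroup G}
    (hX : X = ⊤) (h : IsPNil p X) : IsPNil p G := by
  subst hX
  exact h2 p hp (⊤ : Subgroup G) G (⊤ : Subgroup G).subtype
    (fun x => ⟨⟨x, Subgroup.mem_top x⟩, rfl⟩) h

theorem card_quot_lt {G : Type} [Group G] [Finite G] (N : Subgroup G) [N.Normal] (h : N ≠ ⊥) :
    Nat.card (G ⧸ N) < Nat.card G := by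
  have h1 : Nat.card G = Nat.card (G ⧸ N) * Nat.card N := Subgroup.card_eq_card_quotient_mul_card_subgroup N
  have h2 : 1 < Nat.card N := (Subgroup.one_lt_card_iff_ne_bot N).2 h
  have h3 : 0 < Nat.card (G ⧸ N) := Nat.card_pos
  rw [h1]
  exact (Nat.lt_mul_iff_one_lt_right h3).2 h2

theorem card_sub_lt {G : Type} [Group G] [Finite G] (M : Subgroup G) (h : M ≠ ⊤) :
    Nat.card M < Nat.card G := by
  refine lt_of_le_of_ne (Subgroup.card_le_card_group M) ?_
  intro h'
  exact h (Subgroup.eq_top_of_card_eq M h')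

theorem nm_top_of_normal {G : Type} [Group G] {X : Subgroup G} (h : X.Normal) : Nm X = ⊤ := by
  haveI := h
  exact Subgroup.normalizer_eq_top X

theorem normal_of_nm_top {G : Type} [Group G] {X : Subgroup G} (h : Nm X = ⊤) : X.Normal :=
  Subgroup.normalizer_eq_top_iff.1 h

theorem th (a2 : S_A2) (a3 : S_A3) (a5 : S_A5) (a6 : S_A6) (d2 : S_D2) (e2 : S_E2) (g2 : S_G2)
    (g3 : S_G3) (g4 : S_G4) (g5 : S_G5) (g6 : S_G6) : S_TH := by
  intro p hp hp2
  have key : ∀ n : ℕ, ∀ (G : Type) [Group G] [Finite G] (P : Subgroup G), Nat.card G = n → IsSyl p P →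
      (∀ b : Bool, IsPNil p (Nm (W b P))) → IsPNil p G := by
    intro n
    induction n using Nat.strong_induction_on with
    | _ n ih =>
    intro G _ _ P hn hP hW
    by_contra hG
    have hno : NoPp p G := by
      intro N hN hc
      by_contra hne
      haveI := hN
      have hlt : Nat.card (G ⧸ N) < n := hn ▸ card_quot_lt N hne
      have h1 : IsPNil p (G ⧸ N) := ih _ hlt (G ⧸ N) (P.map (QuotientGroup.mk' N)) rfl
        ((a6 p hp G P hP).2.1 _ _ (QuotientGroup.mk'_surjective N))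
        (fun b => e2 p hp G N P hc hP.1 b (hW b))
      exact hG (a3 p hp G N hc h1)
    have hsub : ∀ M : Subgroup G, M ≠ ⊤ → ∀ R : Subgroup G, R ≤ M → IsSyl p (R.subgroupOf M) →
        (∀ b : Bool, IsPNil p (Nm (W b R))) → IsPNil p M := by
      intro M hM R hRM hR hb
      have hlt : Nat.card M < n := hn ▸ card_sub_lt M hM
      exact ih _ hlt M (R.subgroupOf M) rfl hR (fun b => g6 p hp G R M hRM b (hb b))
    have hPM : ∀ M : Subgroup G, P ≤ M → M ≠ ⊤ → IsPNil p M := fun M h1 h2 =>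
      hsub M h2 P h1 ((a6 p hp G P hP).1 M h1) hW
    obtain ⟨L, hLn, hLp, hLb⟩ := g5 p hp G P hP hG hW hsub
    obtain ⟨⟨U, hU⟩, hUP, -⟩ := a5 p hp G
    haveI := hU.1
    have hUb : U ≠ ⊥ := by
      intro h
      apply hLb
      rw [eq_bot_iff, ← h]
      exact hU.2.2 L hLn hLp
    have hGU : IsPNil p (G ⧸ U) := by
      refine g4 p hp G P U hP hU hUb hPM ?_
      intro R hR hb
      exact ih _ (hn ▸ card_quot_lt U hUb) (G ⧸ U) R rfl hR hb
    have hD := d2 p hp G P
    have hPn : ¬ P.Normal := by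
      intro h
      exact hG (pnil_top a2 hp (nm_top_of_normal ((hD.1 true).2.2.2 h)) (hW true))
    obtain ⟨hC, hUleP, hmax, K, hK⟩ := g3 p hp G P U hP hPn hno hU hGU hPM
    have hNm : ∀ b : Bool, Nm (W b P) = P := by
      intro b
      have h1 : P ≤ Nm (W b P) := le_trans Subgroup.le_normalizer (hD.1 b).2.2.1
      rcases hmax _ h1 with h | h
      · exact h
      · exact absurd (pnil_top a2 hp h (hW b)) hG
    have hJ : W true P ≤ U := by
      have h1 := g2 p hp hp2 G P U hP hU.2.1 hUleP hC (hNm false) K hK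
      change sSup {A : Subgroup G | IsMaxAb P A} ≤ U
      exact sSup_le h1
    have hJe : W true U = W true P := hD.2 U hUleP hJ
    have hJn : (W true P).Normal := by
      rw [← hJe]
      exact ((d2 p hp G U).1 true).2.2.2 hU.1
    have h3 := nm_top_of_normal hJn
    rw [hNm true] at h3
    exact hPn (h3 ▸ Subgroup.normal_top)
  intro G _ _ P hP hW
  exact key _ G P rfl hP hW

theorem superRes_normal (p : ℕ) (G : Type) [Group G] : (superRes p G).Normal := by
  constructor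
  intro n hn g
  unfold superRes at hn ⊢
  rw [Subgroup.mem_sInf] at hn ⊢
  rintro N ⟨hN, h⟩
  exact hN.conj_mem n (hn N ⟨hN, h⟩) g

theorem main (a1 : S_A1) (a2 : S_A2) (a3 : S_A3) (a5 : S_A5) (d2 : S_D2)
    (g3 : S_G3) (g4 : S_G4) (th : S_TH) (m6 : S_M6) (m8 : S_M8) (m9 : S_M9) (m10 : S_M10) (m11 : S_M11)
    (m12 : S_M12) (m13 : S_M13) (m14 : S_M14) : S_MAIN := by
  intro p hp hp2
  have key : ∀ n : ℕ, ∀ (G : Type) [Group G] [Finite G] (P : Subgroup G), Nat.card G = n → IsSyl p P →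
      IsPNil p (Nm P) → Cond p P → IsPNil p G := by
    intro n
    induction n using Nat.strong_induction_on with
    | _ n ih =>
    intro G _ _ P hn hP hNP hCond
    by_contra hG
    have hno : NoPp p G := by
      intro N hN hc
      by_contra hne
      haveI := hN
      have hlt : Nat.card (G ⧸ N) < n := hn ▸ card_quot_lt N hne
      obtain ⟨h1, h2, h3⟩ := m13 p hp G P N hP hc hNP hCond
      exact hG (a3 p hp G N hc (ih _ hlt (G ⧸ N) _ rfl h1 h2 h3))
    have hPM : ∀ M : Subgroup G, P ≤ M → M ≠ ⊤ → IsPNil p M := by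
      intro M h1 h2
      obtain ⟨k1, k2, k3⟩ := m14 p hp G P M h1 hP hNP hCond
      exact ih _ (hn ▸ card_sub_lt M h2) M _ rfl k1 k2 k3
    have hD := d2 p hp G P
    have hPn : ¬ P.Normal := by
      intro h
      exact hG (pnil_top a2 hp (nm_top_of_normal h) hNP)
    have hPb : P ≠ ⊥ := by
      rintro rfl
      exact hPn Subgroup.normal_bot
    obtain ⟨⟨U, hU⟩, hUP, -⟩ := a5 p hp G
    haveI := hU.1
    have hUb : U ≠ ⊥ := by
      have h1 : ¬ ∀ b : Bool, IsPNil p (Nm (W b P)) := fun h => hG (th p hp hp2 G P hP h)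
      push_neg at h1
      obtain ⟨b, hb⟩ := h1
      have h2 : Nm (W b P) = ⊤ := by
        by_contra h3
        exact hb (hPM _ (le_trans Subgroup.le_normalizer (hD.1 b).2.2.1) h3)
      have h3 := normal_of_nm_top h2
      have h4 : IsPGroup p (W b P) := hP.1.to_le (hD.1 b).1
      have h5 := hU.2.2 _ h3 h4
      intro h6
      rw [h6] at h5
      exact (hD.1 b).2.1 hP.1 hPb (le_bot_iff.1 h5)
    have hGU : IsPNil p (G ⧸ U) := by
      refine g4 p hp G P U hP hU hUb hPM ?_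
      intro R hR hb
      exact th p hp hp2 (G ⧸ U) R hR hb
    obtain ⟨hC, hUleP, hmax, K, hK⟩ := g3 p hp G P U hP hPn hno hU hGU hPM
    obtain ⟨q, m, hq, hm, hqm, d, hd, hqd⟩ := m8 p hp G P U hP hU.2.1 hUleP hC K hK
    have hDU : superRes p G ≤ U := (m6 p hp G).2 U hU.1 hGU
    have hKn : (K.comap (QuotientGroup.mk' U)).Normal := hK.2.1.comap _
    obtain ⟨M, T, hTD, hch, hii, hiii, hiv, hv⟩ := m9 p hp G (superRes p G) U
      (K.comap (QuotientGroup.mk' U)) (superRes_normal p G) hU.1 hU.2.1 hDU hKn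
      ⟨q, m, hq, hm, hqm, d, hd, hqd⟩
    have hTp : IsPGroup p T := hU.2.1.to_le (hTD.trans hDU)
    obtain ⟨hexp, hcomm⟩ := m10 p hp hp2 G M T (K.comap (QuotientGroup.mk' U)) hTp hch hii hiv hv
    obtain ⟨z, hz, t, ht, hzt⟩ := m11 p hp hp2 G P U M T hU.2.1 hTp hch
      (fun x hx => by rw [hexp x hx]; exact M.one_mem) hcomm K hK
      (by
        obtain ⟨e, m, he, h1, h2, h3⟩ := hiii
        exact ⟨e, m, he, h1, h2, h3⟩)
    set c := z * t * z⁻¹ * t⁻¹ with hc
    have hTn : T.Normal := hch.2.1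
    have hTP : T ≤ P := (hTD.trans hDU).trans hUleP
    have hcT : c ∈ T := T.mul_mem (hTn.conj_mem t ht z) (T.inv_mem ht)
    have hcc : c ∈ ⁅P, P⁆ := Subgroup.commutator_mem_commutator hz (hTP ht)
    have hzc : c * z ≠ z * c := by
      intro h
      apply hzt
      have h1 : z * c * z⁻¹ * c⁻¹ = 1 := by rw [← h]; group
      rw [h1]
      exact M.one_mem
    obtain ⟨k1, k2⟩ := m12 p hp G P hP.1 c hcc (hexp c hcT) ⟨z, hz, hzc⟩
    obtain ⟨x, hx⟩ : ∃ x : G, x ∉ Nm P := by
      by_contra h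
      push_neg at h
      exact hPn (normal_of_nm_top (eq_top_iff.2 fun x _ => h x))
    apply k2
    refine hCond x hx (zpowers c) k1 ?_
    intro h hh
    have hhT : h ∈ T := (Subgroup.zpowers_le.2 hcT) hh
    refine ⟨hTD hhT, hTP hhT, ?_⟩
    exact hTP (hTn.conj_mem h hhT x)
  intro G _ _ P hP
  constructor
  · intro h
    refine ⟨a1 p hp G h _, ?_⟩
    intro x _ H hH hh
    exfalso
    have h1 := ((m6 p hp G).1 h).2
    have h2 : H ≤ ⊥ := fun y hy => h1 ▸ (hh y hy).1
    have h3 : H = ⊥ := le_bot_iff.1 h2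
    rw [h3, Subgroup.card_bot] at hH
    exact hp.one_lt.ne hH
  · rintro ⟨h1, h2⟩
    exact key _ G P rfl hP h1 h2

end Q2.TN.Asm
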