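import Mathlib
import Pool.Agent.Q2.TN.Asm
import Pool.Agent.Q129.TN_A1
import Pool.Agent.Q130.TN_C1
import Pool.Agent.Q130.TN_D1
import Pool.Agent.Q164.TN_A4
import Pool.Agent.Q17.TN_G6
import Pool.Agent.Q17.TN_M3
import Pool.Agent.Q18.TN_B2
import Pool.Agent.Q18.TN_M12
import Pool.Agent.Q187.TN_E2
import Pool.Agent.Q192.TN_E1
import Pool.Agent.Q192.TN_F6
import Pool.Agent.Q192.TN_M13
import Pool.Agent.Q192.TN_M5
import Pool.Agent.Q21.TN_M8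
import Pool.Agent.Q214.TN.A56
import Pool.Agent.Q256.TN_F4
import Pool.Agent.Q256.TN_M14
import Pool.Agent.Q271.TN_D2
import Pool.Agent.Q271.TN_M11
import Pool.Agent.Q271.TN_M6
import Pool.Agent.Q271.TN_M7
import Pool.Agent.Q294.TN_A2
import Pool.Agent.Q294.TN_A3
import Pool.Agent.Q294.TN_F3
import Pool.Agent.Q294.TN_F5
import Pool.Agent.Q294.TN_F7
import Pool.Agent.Q294.TN_F8
import Pool.Agent.Q294.TN_F9
import Pool.Agent.Q39.TN_F1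
import Pool.Agent.Q39.TN_F2
import Pool.Agent.Q39.TN_G3
import Pool.Agent.Q39.TN_M1
import Pool.Agent.Q39.TN_M2
import Pool.Agent.Q40.TN_B1
import Pool.Agent.Q71.TN_G5
import Pool.Agent.Q71.TN_M10
import Pool.Agent.Q71.TN_M4
import Pool.Agent.Q83.TN_G1
import Pool.Agent.Q83.TN_G2
import Pool.Agent.Q83.TN_G4
import Pool.Agent.Q83.TN_M9

/-! Project TN: all lemmas of the team put together. -/

namespace Q2.TN.Fin

open Q2.TN Subgroup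

theorem a1 : S_A1 := Q129.TN_A1.a1
theorem a2 : S_A2 := Q294.TN_A2.a2
theorem a3 : S_A3 := Q294.TN_A3.a3
theorem a4 : S_A4 := Q164.TN_A4.a4
theorem a5 : S_A5 := Q214.TN.a5
theorem a6 : S_A6 := Q214.TN.a6
theorem b3 : S_B3 := Q214.TN.b3 Q40.TN_B1.b1 Q18.TN_B2.b2
theorem c1 : S_C1 := Q130.TN_C1.c1
theorem d1 : S_D1 := Q130.TN_D1.d1
theorem d2 : S_D2 := Q271.TN_D2.d2
theorem e1 : S_E1 := Q192.TN_E1.e1
theorem e2 : S_E2 := Q187.TN_E2.e2 d1 e1 a2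
theorem f2 : S_F2 := Q39.TN_F2.f2 Q39.TN_F1.f1
theorem f3 : S_F3 := Q294.TN_F3.f3 f2
theorem f7 : S_F7 := Q294.TN_F7.f7 Q294.TN_F5.f5 Q192.TN_F6.f6
theorem f8 : S_F8 := Q294.TN_F8.f8 f3 Q256.TN_F4.f4 f7
theorem g1 : S_G1 := Q83.TN_G1.g1
theorem g2 : S_G2 := Q83.TN_G2.g2 f8 Q294.TN_F9.f9
theorem g3 : S_G3 := Q39.TN_G3.g3 a4 a5 a6 c1 g1
theorem g4 : S_G4 := Q83.TN_G4.g4 a2 a6 d2
theorem g5 : S_G5 := Q71.TN_G5.g5 a2 a6 b3 d1 d2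
theorem g6 : S_G6 := Q17.TN_G6.g6 a1 a2 d1
theorem m1 : S_M1 := Q39.TN_M1.m1
theorem m2 : S_M2 := Q39.TN_M2.m2
theorem m3 : S_M3 := Q17.TN_M3.m3 m1 m2
theorem m4 : S_M4 := Q71.TN_M4.m4 m1 m3
theorem m5 : S_M5 := Q192.TN_M5.m5 m1
theorem m6 : S_M6 := Q271.TN_M6.m6
theorem m7 : S_M7 := Q271.TN_M7.m7
theorem m8 : S_M8 := Q21.TN_M8.m8 m7
theorem m9 : S_M9 := Q83.TN_M9.m9
theorem m10 : S_M10 := Q71.TN_M10.m10
theorem m11 : S_M11 := Q271.TN_M11.m11 f2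
theorem m12 : S_M12 := Q18.TN_M12.m12
theorem m13 : S_M13 := Q192.TN_M13.m13 m5 e1 a2 a6
theorem m14 : S_M14 := Q256.TN_M14.m14 m4 a1 a2 a6

/-- Thompson's criterion: `p` odd, the normalizers of `Z(P)` and `J(P)` are `p`-nilpotent. -/
theorem th : S_TH := Q2.TN.Asm.th a2 a3 a5 a6 d2 e2 g2 g3 g4 g5 g6

theorem main : S_MAIN := Q2.TN.Asm.main a1 a2 a3 a5 d2 g3 g4 th m6 m8 m9 m10 m11 m12 m13 m14

end Q2.TN.Fin
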