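import Mathlib
import Pool.Agent.Q2.TN.Stm
import Pool.Agent.Q39.TN_M1
import Pool.Agent.Q39.TN_M2
import Pool.Agent.Q17.TN_M3

/-! The intersection of all normal subgroups with `p`-supersolvable quotient has itself a `p`-supersolvable
quotient. -/

namespace Q2.TN.Least

open Q2.TN Subgroup

theorem m1 : S_M1 := Q39.TN_M1.m1
theorem m2 : S_M2 := Q39.TN_M2.m2
theorem m3 : S_M3 := Q17.TN_M3.m3 m1 m2

theorem mem_of_snd {G H : Type} [Group G] [Group H] {L : Subgroup (G × H)}
    (hL : L ≤ (MonoidHom.snd G H).ker) {x : G × H} (hx : x ∈ L) : x.2 = 1 := hL hx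

theorem isPSS_prod (p : ℕ) (hp : p.Prime) (G H : Type) [Group G] [Group H] [Finite G] [Finite H]
    (hG : IsPSS p G) (hH : IsPSS p H) : IsPSS p (G × H) := by
  have hsurj : Function.Surjective (MonoidHom.snd G H) := fun h => ⟨(1, h), rfl⟩
  refine m2 p hp (G × H) (MonoidHom.snd G H).ker ?_ ?_
  · let e := QuotientGroup.quotientKerEquivOfSurjective (MonoidHom.snd G H) hsurj
    exact m1 p hp H _ e.symm.toMonoidHom e.symm.surjective hH
  · intro K L hKL hL
    have hinl : ∀ x ∈ L, x = MonoidHom.inl G H x.1 := by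
      intro x hx
      have h2 := mem_of_snd hL hx
      ext
      · rfl
      · rw [h2]; rfl
    have hch : IsChief (K.comap (MonoidHom.inl G H)) (L.comap (MonoidHom.inl G H)) := by
      obtain ⟨hK, hLn, hlt, hmin⟩ := hKL
      refine ⟨hK.comap _, hLn.comap _, ?_, ?_⟩
      · refine lt_of_le_of_ne (comap_mono hlt.le) ?_
        intro heq
        apply hlt.ne
        apply le_antisymm hlt.le
        intro x hx
        have h1 := hinl x hx
        have h3 : x.1 ∈ L.comap (MonoidHom.inl G H) := by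
          change MonoidHom.inl G H x.1 ∈ L
          rw [← h1]; exact hx
        rw [← heq] at h3
        have h4 : MonoidHom.inl G H x.1 ∈ K := h3
        rw [← h1] at h4
        exact h4
      · intro M hM hKM hML
        haveI := hM
        have hMn : (M.prod (⊥ : Subgroup H)).Normal := Subgroup.prod_normal M ⊥
        have hc : (M.prod (⊥ : Subgroup H)).comap (MonoidHom.inl G H) = M := by
          ext x
          simp [Subgroup.mem_comap, Subgroup.mem_prod]
        have h1 : K ≤ M.prod ⊥ := by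
          intro x hx
          have h2 := hinl x (hlt.le hx)
          have h3 := mem_of_snd hL (hlt.le hx)
          rw [Subgroup.mem_prod]
          refine ⟨hKM ?_, Subgroup.mem_bot.2 h3⟩
          change MonoidHom.inl G H x.1 ∈ K
          rw [← h2]; exact hx
        have h2 : M.prod ⊥ ≤ L := by
          intro x hx
          rw [Subgroup.mem_prod] at hx
          have h3 : MonoidHom.inl G H x.1 ∈ L := hML hx.1
          have h4 : x = MonoidHom.inl G H x.1 := by
            ext
            · rfl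
            · rw [Subgroup.mem_bot.1 hx.2]; rfl
          rw [h4]; exact h3
        rcases hmin _ hMn h1 h2 with h | h
        · left; rw [← hc, h]
        · right; rw [← hc, h]
    have hidx : (K.comap (MonoidHom.inl G H)).relIndex (L.comap (MonoidHom.inl G H)) = K.relIndex L := by
      rw [Subgroup.relIndex_comap, Subgroup.map_comap_eq]
      congr 1
      apply inf_eq_right.2
      intro x hx
      exact ⟨x.1, (hinl x hx).symm⟩
    rw [← hidx]
    exact hG _ _ hch

theorem isPSS_inf (p : ℕ) (hp : p.Prime) (G : Type) [Group G] [Finite G] (N₁ N₂ : Subgroup G)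
    [N₁.Normal] [N₂.Normal] (h₁ : IsPSS p (G ⧸ N₁)) (h₂ : IsPSS p (G ⧸ N₂)) :
    IsPSS p (G ⧸ (N₁ ⊓ N₂)) := by
  let f : G →* (G ⧸ N₁) × (G ⧸ N₂) := (QuotientGroup.mk' N₁).prod (QuotientGroup.mk' N₂)
  have hk : f.ker = N₁ ⊓ N₂ := by
    ext x
    simp [f, MonoidHom.mem_ker, Subgroup.mem_inf]
  have h3 : IsPSS p f.range := m3 p hp _ (isPSS_prod p hp _ _ h₁ h₂) f.range
  let e : G ⧸ (N₁ ⊓ N₂) ≃* f.range :=
    (QuotientGroup.quotientMulEquivOfEq hk.symm).trans (QuotientGroup.quotientKerEquivRange f)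
  exact m1 p hp f.range _ e.symm.toMonoidHom e.symm.surjective h3

theorem isPSS_top (p : ℕ) (G : Type) [Group G] : IsPSS p (G ⧸ (⊤ : Subgroup G)) := by
  intro K H hKH
  exfalso
  haveI : Subsingleton (G ⧸ (⊤ : Subgroup G)) := QuotientGroup.subsingleton_quotient_top
  apply hKH.2.2.1.ne
  exact Subsingleton.elim _ _

theorem isLeast (p : ℕ) (hp : p.Prime) (G : Type) [Group G] [Finite G] :
    IsLeast {N : Subgroup G | ∃ _ : N.Normal, IsPSS p (G ⧸ N)} (superRes p G) := by
  have hne : ({N : Subgroup G | ∃ _ : N.Normal, IsPSS p (G ⧸ N)}).Nonempty :=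
    ⟨⊤, inferInstance, isPSS_top p G⟩
  obtain ⟨N₀, hN₀⟩ := (Set.toFinite {N : Subgroup G | ∃ _ : N.Normal, IsPSS p (G ⧸ N)}).exists_minimal hne
  have hl : IsLeast {N : Subgroup G | ∃ _ : N.Normal, IsPSS p (G ⧸ N)} N₀ := by
    refine ⟨hN₀.1, ?_⟩
    intro N hN
    obtain ⟨n1, s1⟩ := hN₀.1
    obtain ⟨n2, s2⟩ := hN
    have h3 : N₀ ⊓ N ∈ {N : Subgroup G | ∃ _ : N.Normal, IsPSS p (G ⧸ N)} :=
      ⟨inferInstance, isPSS_inf p hp G N₀ N s1 s2⟩
    exact le_trans (hN₀.2 h3 inf_le_left) inf_le_right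
  have h4 : superRes p G = N₀ := hl.isGLB.sInf_eq
  rw [h4]
  exact hl

end Q2.TN.Least
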